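import Pool.Agent.Y132.AH.MT2

/-!
# The motivic Tate conjecture for products with varieties of symplectic type

Let `k` be a finitely generated field of characteristic zero with absolute Galois group `Γ`, and `W`
the `ℓ`-adic cohomology of smooth projective varieties over `k`, with coefficients in an algebraic
closure of `ℚ_ℓ` and the action of `Γ` (`GaloisData`). Let `𝒞` be a system of classes which contains
the algebraic classes and is closed under products, pull-backs and push-forwards, for example the
linear combinations of motivated classes (André) or of absolute Hodge classes (Deligne).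

Let `X i` be a family of odd-dimensional smooth projective varieties, which may be infinite, such
that homological and numerical equivalence coincide on `X i`, the transcendental cohomology `T i` of
`X i` is concentrated in the middle degree, the Galois group acts irreducibly on the Lie algebra of
the skew operators on `T i`, and these adjoint representations are pairwise not isomorphic. Let `Z`
be any smooth projective variety.

First part: if for every `i`, at some place, the slopes of Frobenius on `T i` are separated from
those on the generators of the cohomology of `Z`, then all Tate classes on all powers of a product of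
`Z` and powers of the `X i` belong to `𝒞` if and only if all Tate classes on all powers of `Z` do.

Second part: in general there is a finite set `B` of indices such that all Tate classes on the
product of `Z` and powers of the `X i` belong to `𝒞` if and only if this holds for its small
subproducts (`SmallDim`).
-/

open CategoryTheory AlgebraicGeometry

universe u

namespace Pool.Agent.Results.MP_bbcdf5_ag.MotivatedTateClasses

open Pool.Agent.H914 Pool.Agent.H914.VarClass Pool.Agent.H914.VarClass.Obj Pool.Agent.Y132.AH
  Pool.Agent.Y132.AF

variable {k : Type u} [Field k] {𝒱 : VarClass k} {ops : CycleOps 𝒱}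

theorem result (W : WeilCohomology.{u, 0} ops) [IsAlgClosed W.K] {Γ : Type} [Group Γ]
    (G : GaloisData W Γ) (𝒞 : Classes W) {ι : Type} [DecidableEq ι] (X : ι → 𝒱.Obj)
    (Z : 𝒱.Obj) (hO : ∀ i, OddMiddle W (X i)) (hX : BigFamily G X) :
    ((∀ i, SlopeSep G (X i) Z) → ∀ L : List ι,
      (TateOnAll G 𝒞 (prodList X Z L) ↔ TateOnAll G 𝒞 Z)) ∧
    ∃ B : Finset ι, ∑ i ∈ B, trDim W (X i) ≤ totDim W Z ∧ (∀ i ∈ B, ¬SlopeSep G (X i) Z) ∧
      ∀ L : List ι, TateOn G 𝒞 (prodList X Z L) ↔
        ∀ L' : List ι, L'.Sublist L → SmallDim W X Z B L' → TateOn G 𝒞 (prodList X Z L') :=
  ⟨fun h L => tateOnAll_sep G Z (bigFamily_ad G hO hX) 𝒞 h L, tateOn_iff_sep G Z hO hX 𝒞⟩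

end Pool.Agent.Results.MP_bbcdf5_ag.MotivatedTateClasses
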