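import Pool.Agent.Results.MP_3703a7_ag.RealMultiplicationDensityOne
import Pool.Agent.Results.MP_938ce2_ag.UnitaryDensityOne

/-!
# Motivic Galois groups of motives with coefficients in a totally real or CM field

Let `k` be a number field or a finitely generated field of characteristic zero, contained in `ℂ`, and let `M` be a
pure motive over `k` (for absolute Hodge cycles or in the sense of André) with Betti realisation `V`, on
which a number field `E`, Galois over `ℚ`, acts, with a polarization `J` on `V` for which the adjoint of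
`a ∈ E` is `bar a`, `bar` an automorphism of `E`: if `bar` is the identity then `E` is totally real (`E = ℚ` is
allowed), otherwise `E` is a CM field. `V` is a vector space of dimension `n` over `E`. Let `ρ_ℓ` be the
representation of a profinite group `Γ` (the Galois group of `k` or the fundamental group of a model) on
`V ⊗ ℚ_ℓ`; if `k` is not a number field, a closed point of the generic fibre of the model gives a homomorphism
`s` from the Galois group of a number field `K` to `Γ`. At the places `v` of good reduction the geometric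
Frobenius element has a characteristic polynomial `P_v` with rational coefficients and a multiplier
`q_v`, independent of `ℓ`.

**Theorem.** Suppose that the finitely many Frobenius polynomials in (1) and (2) satisfy:
(1) for some place `w_0` of good reduction the roots of `P_{w_0}` are simple and `x / y = z / u` for roots
`x ≠ y`, `z`, `u` only in the trivial cases `(z, u) = (x, y)` and `(z, u) = (q / y, q / x)`, `q` the multiplier;
(2) `u_0, ..., u_m` are places of good reduction such that the roots of `P_{u_i}` are simple and no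
quotient of two different roots is a root of unity, `F` is the intersection of the splitting fields of these
polynomials, and for every automorphism `g` of the algebraic closure of `ℚ`, of order `f` on `E`,
* for every `d < n [E : ℚ]`, `d > 0`, which is not divisible by `n f`, there are a place `v` of this type and
an automorphism `w` which agrees with `g` on `F` such that no set of `d` roots of `P_v` is stable under `w`;
* there are a place `v` of this type and an automorphism `w` which agrees with `g` on `F` such that `w ^ f`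
has a fixed point in every nonempty set of roots of `P_v` which is stable under `w` and whose number
of elements is divisible by `n f`.
Let `𝔤` be a vector space of RATIONAL matrices such that `𝔤 ⊗ ℚ_ℓ` contains the Lie algebra of the image of
`ρ_ℓ` for a set of prime numbers `ℓ` which is not of natural density zero. Then `𝔤` contains all rational
matrices which commute with `E`, are skew with respect to `J` and have trace zero over `E`.

The Lie algebra `𝔤` of the motivic Galois group of `M` has this property for ALL `ℓ`, because the image of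
`ρ_ℓ` is contained in the group of the `ℚ_ℓ`-points of the motivic Galois group. On the other hand the motivic
Galois group is contained in the group of the similitudes of `J` which commute with `E`. So the derived
group of its identity component is the full group of isometries over `E` of determinant one: `Sp_n`, `SO_n` or
`SU_n` over `E` (respectively over its maximal totally real subfield). By the theorems
`RealMultiplicationDensityOne` and `UnitaryDensityOne` this is also true for the group `G_ℓ` for 100 percent of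
the primes `ℓ`: at these primes the motivic Tate conjecture `G_ℓ = G_mot ⊗ ℚ_ℓ` is true for the derived groups
of the identity components. For the motivic Galois group itself no exceptional set of primes remains.

Idea of the proof. The two theorems give the statement over `ℚ_ℓ` at 100 percent of the primes `ℓ`, so for at
least one prime `ℓ` at which `𝔤 ⊗ ℚ_ℓ` contains the Lie algebra of the image, and rationality is deduced from
a linear retraction of `ℚ_ℓ` to `ℚ`.
-/

set_option autoImplicit false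

namespace Pool.Agent.Results.MP_bbcdf5_ag.MotivicLieAlgebra

open Matrix Polynomial Filter Topology NumberField IsDedekindDomain

/-- the absolute Galois group of `K`, with its profinite (Krull) topology -/
abbrev AbsoluteGaloisGroup (K : Type) [Field K] : Type := Gal(AlgebraicClosure K/K)

/-- `σ` is an (arithmetic) Frobenius element at the prime `v` of the number field `K`: for some prime
`Q` of the algebraic closure above `v` it acts on the residue field as `x ↦ x ^ N(v)` -/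
def IsFrobenius {K : Type} [Field K] [NumberField K] (v : HeightOneSpectrum (𝓞 K))
    (σ : AbsoluteGaloisGroup K) : Prop :=
  ∃ Q : Ideal (𝓞 (AlgebraicClosure K)), Q.IsMaximal ∧
    Q.comap (algebraMap (𝓞 K) (𝓞 (AlgebraicClosure K))) = v.asIdeal ∧
    ∀ x : 𝓞 (AlgebraicClosure K), σ • x - x ^ Ideal.absNorm v.asIdeal ∈ Q

/-- `ρ` is a continuous representation of `Γ` on `ℚ_ℓ ^ N` by similitudes of the form with the rational
matrix `J`; for all `v ∉ S` which are prime to `ℓ` the characteristic polynomial of (the image under `s` of)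
the geometric Frobenius elements `σ⁻¹` (`σ` arithmetic) at `v` is `P v`, and their multiplier is `q v` -/
def IsPolarizedSystem (K : Type) [Field K] [NumberField K] {Γ : Type} [Group Γ] [TopologicalSpace Γ]
    (s : AbsoluteGaloisGroup K →* Γ) (N ℓ : ℕ) [Fact ℓ.Prime]
    (ρ : Γ →* Matrix (Fin N) (Fin N) ℚ_[ℓ]) (J : Matrix (Fin N) (Fin N) ℚ)
    (S : Set (HeightOneSpectrum (𝓞 K))) (P : HeightOneSpectrum (𝓞 K) → ℚ[X])
    (q : HeightOneSpectrum (𝓞 K) → ℚ) : Prop :=
  Continuous ρ ∧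
    (∀ γ, ∃ c : ℚ_[ℓ], (ρ γ)ᵀ * J.map (algebraMap ℚ ℚ_[ℓ]) * ρ γ = c • J.map (algebraMap ℚ ℚ_[ℓ])) ∧
    ∀ v ∉ S, (ℓ : 𝓞 K) ∉ v.asIdeal → ∀ σ : AbsoluteGaloisGroup K, IsFrobenius v σ →
      (ρ (s σ⁻¹)).charpoly = (P v).map (algebraMap ℚ ℚ_[ℓ]) ∧
        (ρ (s σ⁻¹))ᵀ * J.map (algebraMap ℚ ℚ_[ℓ]) * ρ (s σ⁻¹) =
          (q v : ℚ_[ℓ]) • J.map (algebraMap ℚ ℚ_[ℓ])

/-- the roots of `P v` are simple, and different roots have different `n`-th powers for all `n > 0` -/
def IsRegularPlace {K : Type} [Field K] [NumberField K]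
    (S : Set (HeightOneSpectrum (𝓞 K))) (P : HeightOneSpectrum (𝓞 K) → ℚ[X])
    (v : HeightOneSpectrum (𝓞 K)) : Prop :=
  v ∉ S ∧ (P v).Separable ∧ ∀ n : ℕ, 0 < n → ∀ x y : ℂ,
    aeval x (P v) = 0 → aeval y (P v) = 0 → x ^ n = y ^ n → x = y

/-- the roots of `P v` are simple, and the quotients `x / y` of different roots are different, except
for `x / y = (q / y) / (q / x)`, `q` the multiplier -/
def IsGenericPlace {K : Type} [Field K] [NumberField K]
    (S : Set (HeightOneSpectrum (𝓞 K))) (P : HeightOneSpectrum (𝓞 K) → ℚ[X])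
    (q : HeightOneSpectrum (𝓞 K) → ℚ) (v : HeightOneSpectrum (𝓞 K)) : Prop :=
  v ∉ S ∧ (P v).Separable ∧ ∀ x y z u : ℂ, aeval x (P v) = 0 → aeval y (P v) = 0 →
    aeval z (P v) = 0 → aeval u (P v) = 0 → x ≠ y → x * u = z * y →
    (z = x ∧ u = y) ∨ (z * y = (q v : ℂ) ∧ u * x = (q v : ℂ))

/-- the splitting field of `Q` in the algebraic closure of `ℚ` -/
noncomputable def splittingField (Q : ℚ[X]) : Set (AlgebraicClosure ℚ) :=
  (IntermediateField.adjoin ℚ {x : AlgebraicClosure ℚ | aeval x Q = 0} :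
    IntermediateField ℚ (AlgebraicClosure ℚ))

/-- the order of the restriction of `g` to the (finite, normal) field `E` -/
noncomputable def orderOn (E : IntermediateField ℚ (AlgebraicClosure ℚ))
    (g : AbsoluteGaloisGroup ℚ) : ℕ :=
  sInf {k : ℕ | 0 < k ∧ ∀ a ∈ E, (g ^ k) a = a}

/-- `T` is a set of roots of `Q` which is stable under `w` -/
def IsStableSet (w : AbsoluteGaloisGroup ℚ) (Q : ℚ[X]) (T : Set (AlgebraicClosure ℚ)) : Prop :=
  (∀ x ∈ T, aeval x Q = 0) ∧ ∀ x ∈ T, w x ∈ T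

/-- `𝔤 ⊗ ℚ_ℓ` contains the Lie algebra of the image of `ρ`: all limits of `ℓ ^ (-k) (ρ (σ_k) - 1)` for sequences
of elements `σ_k` of `Γ` -/
def ContainsLieAlgebra {Γ : Type} [Group Γ] {N : ℕ} (ℓ : ℕ) [Fact ℓ.Prime]
    (ρ : Γ →* Matrix (Fin N) (Fin N) ℚ_[ℓ]) (𝔤 : Submodule ℚ (Matrix (Fin N) (Fin N) ℚ)) : Prop :=
  ∀ (Y : Matrix (Fin N) (Fin N) ℚ_[ℓ]) (σ : ℕ → Γ),
    Tendsto (fun k : ℕ => ((ℓ : ℚ_[ℓ]) ^ k)⁻¹ • (ρ (σ k) - 1)) atTop (𝓝 Y) →
      Y ∈ Submodule.span ℚ_[ℓ]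
        ((fun X : Matrix (Fin N) (Fin N) ℚ => X.map (algebraMap ℚ ℚ_[ℓ])) '' 𝔤)

/-- the set `A` of prime numbers has natural density zero -/
def HasDensityZero (A : Set ℕ) : Prop :=
  Tendsto (fun n : ℕ => (Nat.card {ℓ : ℕ // ℓ ≤ n ∧ ℓ ∈ A} : ℝ) / (Nat.primeCounting n : ℝ))
    atTop (𝓝 0)

/-- descent of a linear relation from an extension field -/
theorem descent {F W : Type} [Field F] [Algebra ℚ F] (T : Set (W → ℚ)) (a : W → ℚ)
    (h : (fun w => algebraMap ℚ F (a w)) ∈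
      Submodule.span F ((fun (s : W → ℚ) (w : W) => algebraMap ℚ F (s w)) '' T)) :
    a ∈ Submodule.span ℚ T := by
  obtain ⟨g, hg⟩ := (Algebra.linearMap ℚ F).exists_leftInverse_of_injective
    (LinearMap.ker_eq_bot.2 (algebraMap ℚ F).injective)
  have hg1 : ∀ x : ℚ, g (algebraMap ℚ F x) = x := fun x => by
    simpa using LinearMap.congr_fun hg x
  have key : ∀ f ∈ Submodule.span F ((fun (s : W → ℚ) (w : W) => algebraMap ℚ F (s w)) '' T),
      ∀ c : F, (fun w => g (c * f w)) ∈ Submodule.span ℚ T := by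
    intro f hf
    induction hf using Submodule.span_induction with
    | mem f hf =>
      obtain ⟨s, hs, rfl⟩ := hf
      intro c
      have : (fun w => g (c * algebraMap ℚ F (s w))) = g c • s := by
        funext w
        rw [mul_comm, ← Algebra.smul_def, map_smul]
        simp [mul_comm]
      rw [this]
      exact Submodule.smul_mem _ _ (Submodule.subset_span hs)
    | zero =>
      intro c
      have : (fun w : W => g (c * (0 : W → F) w)) = 0 := by
        funext w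
        simp
      rw [this]
      exact Submodule.zero_mem _
    | add x y _ _ hx hy =>
      intro c
      have : (fun w => g (c * (x + y) w)) = (fun w => g (c * x w)) + fun w => g (c * y w) := by
        funext w
        simp [mul_add]
      rw [this]
      exact Submodule.add_mem _ (hx c) (hy c)
    | smul b x _ hx =>
      intro c
      have : (fun w => g (c * (b • x) w)) = fun w => g ((c * b) * x w) := by
        funext w
        simp [mul_assoc]
      rw [this]
      exact hx _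
  have h9 := key _ h 1
  have h10 : (fun w => g (1 * algebraMap ℚ F (a w))) = a := by
    funext w
    rw [one_mul, hg1]
  rw [h10] at h9
  exact h9

/-- **The Lie algebra of the motivic Galois group.** -/
theorem result (K : Type) [Field K] [NumberField K] (Γ : Type) [Group Γ] [TopologicalSpace Γ]
    [IsTopologicalGroup Γ] [CompactSpace Γ] (s : AbsoluteGaloisGroup K →* Γ) (hs : Continuous s)
    (N : ℕ) (S : Set (HeightOneSpectrum (𝓞 K))) (hS : S.Finite)
    (P : HeightOneSpectrum (𝓞 K) → ℚ[X]) (q : HeightOneSpectrum (𝓞 K) → ℚ)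
    (J : Matrix (Fin N) (Fin N) ℚ) (hJ : Jᵀ = J ∨ Jᵀ = -J) (hdet : J.det ≠ 0)
    (ρ : ∀ (ℓ : ℕ) [Fact ℓ.Prime], Γ →* Matrix (Fin N) (Fin N) ℚ_[ℓ])
    (hρ : ∀ (ℓ : ℕ) [Fact ℓ.Prime], IsPolarizedSystem K s N ℓ (ρ ℓ) J S P q)
    -- the coefficients
    (E : IntermediateField ℚ (AlgebraicClosure ℚ)) [FiniteDimensional ℚ E] [Normal ℚ E]
    (n : ℕ) (hn : 0 < n) (hN : N = n * Module.finrank ℚ E)
    (ε : E →+* Matrix (Fin N) (Fin N) ℚ)
    (hε : ∀ (ℓ : ℕ) [Fact ℓ.Prime] (a : E) (γ : Γ),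
      (ε a).map (algebraMap ℚ ℚ_[ℓ]) * ρ ℓ γ = ρ ℓ γ * (ε a).map (algebraMap ℚ ℚ_[ℓ]))
    (htr : ∀ a : E, (ε a).trace = (n : ℚ) * Algebra.trace ℚ E a)
    (bar : E →+* E) (hεJ : ∀ a : E, (ε a)ᵀ * J = J * ε (bar a))
    -- the places
    (w₀ : HeightOneSpectrum (𝓞 K)) (hw₀ : IsGenericPlace S P q w₀)
    (m : ℕ) (u : Fin (m + 1) → HeightOneSpectrum (𝓞 K)) (hu : ∀ i, IsRegularPlace S P (u i))
    (h1 : ∀ (g : AbsoluteGaloisGroup ℚ) (d : ℕ), 0 < d → d < N → ¬ n * orderOn E g ∣ d →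
      ∃ (v : HeightOneSpectrum (𝓞 K)) (w : AbsoluteGaloisGroup ℚ), IsRegularPlace S P v ∧
        (∀ x, (∀ i, x ∈ splittingField (P (u i))) → w x = g x) ∧
        ∀ T, IsStableSet w (P v) T → T.ncard ≠ d)
    (h2 : ∀ g : AbsoluteGaloisGroup ℚ,
      ∃ (v : HeightOneSpectrum (𝓞 K)) (w : AbsoluteGaloisGroup ℚ), IsRegularPlace S P v ∧
        (∀ x, (∀ i, x ∈ splittingField (P (u i))) → w x = g x) ∧
        ∀ T, IsStableSet w (P v) T → T.Nonempty → n * orderOn E w ∣ T.ncard →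
          ∃ x ∈ T, (w ^ orderOn E w) x = x)
    -- the rational Lie algebra
    (𝔤 : Submodule ℚ (Matrix (Fin N) (Fin N) ℚ))
    (h𝔤 : ¬ HasDensityZero {ℓ | ∃ _ : Fact ℓ.Prime, ContainsLieAlgebra ℓ (ρ ℓ) 𝔤})
    (X : Matrix (Fin N) (Fin N) ℚ) (hX1 : ∀ a, X * ε a = ε a * X) (hX2 : Xᵀ * J + J * X = 0)
    (hX3 : ∀ a, (X * ε a).trace = 0) : X ∈ 𝔤 := by
  classical
  let ε' : ∀ (ℓ : ℕ) [Fact ℓ.Prime], E →+* Matrix (Fin N) (Fin N) ℚ_[ℓ] := fun ℓ _ =>
    ((algebraMap ℚ ℚ_[ℓ]).mapMatrix).comp ε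
  let J' : ∀ (ℓ : ℕ) [Fact ℓ.Prime], Matrix (Fin N) (Fin N) ℚ_[ℓ] := fun ℓ _ =>
    J.map (algebraMap ℚ ℚ_[ℓ])
  have hJ1 : ∀ (ℓ : ℕ) [Fact ℓ.Prime], (J' ℓ)ᵀ = J' ℓ ∨ (J' ℓ)ᵀ = -J' ℓ := by
    intro ℓ _
    rcases hJ with h | h
    · left
      change (J.map (algebraMap ℚ ℚ_[ℓ]))ᵀ = J.map (algebraMap ℚ ℚ_[ℓ])
      rw [← Matrix.transpose_map, h]
    · right
      change (J.map (algebraMap ℚ ℚ_[ℓ]))ᵀ = -J.map (algebraMap ℚ ℚ_[ℓ])
      rw [← Matrix.transpose_map, h]
      ext i j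
      simp
  have hJ2 : ∀ (ℓ : ℕ) [Fact ℓ.Prime], (J' ℓ).det ≠ 0 := by
    intro ℓ _
    change (J.map (algebraMap ℚ ℚ_[ℓ])).det ≠ 0
    rw [← RingHom.mapMatrix_apply, ← RingHom.map_det]
    exact fun h => hdet ((algebraMap ℚ ℚ_[ℓ]).injective (by rw [h, map_zero]))
  have htr' : ∀ (ℓ : ℕ) [Fact ℓ.Prime] (a : E),
      (ε' ℓ a).trace = (n : ℚ_[ℓ]) * ((Algebra.trace ℚ E a : ℚ) : ℚ_[ℓ]) := by
    intro ℓ _ a
    change ((ε a).map (algebraMap ℚ ℚ_[ℓ])).trace = _
    have h3 : ((ε a).map (algebraMap ℚ ℚ_[ℓ])).trace = algebraMap ℚ ℚ_[ℓ] (ε a).trace := by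
      simp [Matrix.trace]
    rw [h3, htr]
    simp
  have hεJ' : ∀ (ℓ : ℕ) [Fact ℓ.Prime] (a : E), (ε' ℓ a)ᵀ * J' ℓ = J' ℓ * ε' ℓ (bar a) := by
    intro ℓ _ a
    change ((ε a).map (algebraMap ℚ ℚ_[ℓ]))ᵀ * J.map (algebraMap ℚ ℚ_[ℓ]) =
      J.map (algebraMap ℚ ℚ_[ℓ]) * (ε (bar a)).map (algebraMap ℚ ℚ_[ℓ])
    rw [← Matrix.transpose_map, ← Matrix.map_mul, ← Matrix.map_mul, hεJ]
  -- at 100 percent of the primes the extension of `X` is in the Lie algebra of the image
  have hold : HasDensityZero {ℓ | ∃ _ : Fact ℓ.Prime, ¬ ∃ σ : ℕ → Γ,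
      Tendsto (fun k : ℕ => ((ℓ : ℚ_[ℓ]) ^ k)⁻¹ • (ρ ℓ (σ k) - 1)) atTop
        (𝓝 (X.map (algebraMap ℚ ℚ_[ℓ])))} := by
    have hXa : ∀ (ℓ : ℕ) [Fact ℓ.Prime] (a : E),
        X.map (algebraMap ℚ ℚ_[ℓ]) * ε' ℓ a = ε' ℓ a * X.map (algebraMap ℚ ℚ_[ℓ]) := by
      intro ℓ _ a
      change X.map (algebraMap ℚ ℚ_[ℓ]) * (ε a).map (algebraMap ℚ ℚ_[ℓ]) =
        (ε a).map (algebraMap ℚ ℚ_[ℓ]) * X.map (algebraMap ℚ ℚ_[ℓ])
      rw [← Matrix.map_mul, ← Matrix.map_mul, hX1]
    have hXb : ∀ (ℓ : ℕ) [Fact ℓ.Prime],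
        (X.map (algebraMap ℚ ℚ_[ℓ]))ᵀ * J' ℓ + J' ℓ * X.map (algebraMap ℚ ℚ_[ℓ]) = 0 := by
      intro ℓ _
      change (X.map (algebraMap ℚ ℚ_[ℓ]))ᵀ * J.map (algebraMap ℚ ℚ_[ℓ]) +
        J.map (algebraMap ℚ ℚ_[ℓ]) * X.map (algebraMap ℚ ℚ_[ℓ]) = 0
      rw [← Matrix.transpose_map, ← Matrix.map_mul, ← Matrix.map_mul, ← Matrix.map_add _ (map_add _),
        hX2]
      ext i j
      simp
    have hXc : ∀ (ℓ : ℕ) [Fact ℓ.Prime] (a : E),
        (X.map (algebraMap ℚ ℚ_[ℓ]) * ε' ℓ a).trace = 0 := by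
      intro ℓ _ a
      change (X.map (algebraMap ℚ ℚ_[ℓ]) * (ε a).map (algebraMap ℚ ℚ_[ℓ])).trace = 0
      rw [← Matrix.map_mul]
      have h3 : ((X * ε a).map (algebraMap ℚ ℚ_[ℓ])).trace =
          algebraMap ℚ ℚ_[ℓ] (X * ε a).trace := by
        rw [Matrix.trace, Matrix.trace, map_sum]
        rfl
      rw [h3, hX3, map_zero]
    by_cases hbar : ∃ a, bar a ≠ a
    · refine Y142.ZI.DensityZero.mono (MP_938ce2_ag.UnitaryDensityOne.result K Γ s hs N S hS P q ρ J'
        (fun ℓ _ => ⟨(hρ ℓ).1, hJ1 ℓ, hJ2 ℓ, (hρ ℓ).2.1, (hρ ℓ).2.2⟩) E n hn hN ε'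
        (fun ℓ _ a γ => hε ℓ a γ) (fun ℓ _ => htr' ℓ) bar hbar (fun ℓ _ => hεJ' ℓ) w₀ hw₀ m u hu
        h1 h2) ?_
      rintro ℓ ⟨hp, hno⟩
      exact ⟨hp, fun h => hno (h.1 _ (hXa ℓ) (hXb ℓ) (hXc ℓ))⟩
    · have hbar' : ∀ a, bar a = a := fun a => by
        by_contra h
        exact hbar ⟨a, h⟩
      refine Y142.ZI.DensityZero.mono (MP_3703a7_ag.RealMultiplicationDensityOne.result K Γ s hs N S
        hS P q ρ J' (fun ℓ _ => ⟨(hρ ℓ).1, hJ1 ℓ, hJ2 ℓ, (hρ ℓ).2.1, (hρ ℓ).2.2⟩) E n hn hN ε'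
        (fun ℓ _ a γ => hε ℓ a γ) (fun ℓ _ => htr' ℓ)
        (fun ℓ _ a => by rw [hεJ' ℓ a, hbar' a]) w₀ hw₀ m u hu h1 h2) ?_
      rintro ℓ ⟨hp, hno⟩
      exact ⟨hp, fun h => hno (h.1 _ (hXa ℓ) (hXb ℓ))⟩
  obtain ⟨ℓ, hp, hT, σ, hσ⟩ : ∃ (ℓ : ℕ) (_ : Fact ℓ.Prime), ContainsLieAlgebra ℓ (ρ ℓ) 𝔤 ∧
      ∃ σ : ℕ → Γ, Tendsto (fun k : ℕ => ((ℓ : ℚ_[ℓ]) ^ k)⁻¹ • (ρ ℓ (σ k) - 1)) atTop
        (𝓝 (X.map (algebraMap ℚ ℚ_[ℓ]))) := by
    by_contra hcon
    refine h𝔤 (Y142.ZI.DensityZero.mono hold ?_)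
    rintro ℓ ⟨hp, hT⟩
    exact ⟨hp, fun h => hcon ⟨ℓ, hp, hT, h⟩⟩
  have h5 := hT _ σ hσ
  -- matrices as functions
  let R : Matrix (Fin N) (Fin N) ℚ_[ℓ] →ₗ[ℚ_[ℓ]] (Fin N × Fin N → ℚ_[ℓ]) :=
    { toFun := fun Y w => Y w.1 w.2
      map_add' := fun _ _ => rfl
      map_smul' := fun _ _ => rfl }
  have h6 := Submodule.mem_map_of_mem (f := R) h5
  rw [Submodule.map_span] at h6
  have h8 : (fun w : Fin N × Fin N => X w.1 w.2) ∈ Submodule.span ℚ
      ((fun (Y : Matrix (Fin N) (Fin N) ℚ) (w : Fin N × Fin N) => Y w.1 w.2) '' 𝔤) := by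
    refine descent (F := ℚ_[ℓ]) _ _ ?_
    refine Submodule.span_mono ?_ h6
    rintro _ ⟨_, ⟨Y, hY, rfl⟩, rfl⟩
    exact ⟨_, ⟨Y, hY, rfl⟩, rfl⟩
  let Q : (Fin N × Fin N → ℚ) →ₗ[ℚ] Matrix (Fin N) (Fin N) ℚ :=
    { toFun := fun f => Matrix.of fun i j => f (i, j)
      map_add' := fun _ _ => rfl
      map_smul' := fun _ _ => rfl }
  have h9 := Submodule.mem_map_of_mem (f := Q) h8
  rw [Submodule.map_span] at h9
  have h10 : Submodule.span ℚ (Q ''
      ((fun (Y : Matrix (Fin N) (Fin N) ℚ) (w : Fin N × Fin N) => Y w.1 w.2) '' 𝔤)) ≤ 𝔤 := by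
    refine Submodule.span_le.2 ?_
    rintro _ ⟨_, ⟨Y, hY, rfl⟩, rfl⟩
    exact hY
  exact h10 h9

end Pool.Agent.Results.MP_bbcdf5_ag.MotivicLieAlgebra
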