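import Mathlib
import Pool.Agent.Y114.RM.All3

/-!
# The motivic Tate conjecture at every prime `ℓ` for motives with regular monodromy

Let `M i` be finitely many objects of the category of motives of André (or of motives for absolute
Hodge cycles) over a finitely generated field `k` of characteristic zero, pure of weight `w i`.  They
extend to a smooth model `U` of `k`; let `Γ` be the fundamental group of `U` (a quotient of the
absolute Galois group of `k`), `ρ i` the action of `Γ` on the `ℓ`-adic realization of `M i`, `V` the
direct sum of the realizations, and `𝔤` the Lie algebra (over `ℚ_ℓ`) of the motivic Galois
group of the direct sum `M` of the `M i`; so the image of `𝔤` in the endomorphisms of the `i`-th summand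
is the Lie algebra of the motivic Galois group of `M i`.  The property `Motivic ρ 𝔤` (structure
`IsMotivic`) states the properties of `𝔤` which are used: it is a Lie algebra, it respects the
direct sum, it is reductive (trace form nondegenerate, completely reducible on `V`), it consists of all
endomorphisms which kill the tensors killed by `𝔤`, and these tensors are Tate tensors (fixed by a
subgroup of finite index of `Γ`).  Nothing is assumed on the type of the group (it can be
exceptional), on the Hodge numbers, or on the semisimplicity of the Galois action.

Let `s` be a closed point of `U`, with residue field the number field `F`; it induces a homomorphism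
(again `s`) from the absolute Galois group of `F` to `Γ`, and `ρs` is the restriction of `ρ`, that is
the realization of the fibre at `s`.  (If `k = F` is a number field `Γ` is its Galois group and `s` the
identity.)  Suppose that

* there are three primes `p ≠ ℓ`, unramified in `F`, such that the fibre has good reduction at the
  places above `p`, with Frobenius polynomials in `ℚ[X]` which are pure of weight `w i`;
* at ONE place `v₀` of good reduction the Frobenius tori have maximal rank: there are `r`
  multiplicatively independent numbers among the Frobenius eigenvalues of the `M i`, and the rank of `𝔤`
  is at most `r` (some element of `𝔤` has a centralizer of at most this dimension); and there are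
  `r i` multiplicatively independent Frobenius eigenvalues of `M i`,
* where `r i` is such that every `M i` has regular monodromy at some place: there is a prime
  `p ≠ ℓ`, unramified in `F`, such that at each place above `p` the `i`-th summand has good reduction
  or regular monodromy, the latter at least once.  Regular monodromy means that
  the inertia group acts unipotently on the realization of `M i`, and that it contains an element whose
  centralizer in the Lie algebra of the motivic group of `M i` has at most the dimension `r i` (so the
  monodromy operator `N` is a regular, or principal, nilpotent element of this Lie algebra and its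
  rank is `r i`).

Theorem.  Then `V` is semisimple for all subgroups of finite index of `Γ`, and the Tate tensors are
the tensors killed by `𝔤`: every tensor on `V` and its dual space which is fixed by a subgroup of
finite index of the Galois group is a combination of motivated classes (absolute Hodge classes).
So the Lie algebra of the `ℓ`-adic monodromy group is `𝔤`: the identity components of `G_ℓ(M)` and of
the motivic Galois group are the same for EVERY prime `ℓ` for which there are such places, and
`G_ℓ(M)` is the motivic Galois group if the latter is connected (as it is after a finite extension of
`k`).  Tate twists are allowed: `ℚ(1)` can be added to the `M i` (it has regular monodromy everywhere).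

Examples are motives in one-parameter families with a cusp of principal unipotent monodromy
(Calabi-Yau type families, rigid local systems with group of type `G₂` or `E₈`, odd orthogonal
groups, spin and other representations of such groups), at parameters in `F` which are congruent to
the cusp modulo a prime, if one Frobenius torus has maximal rank.  The theorem covers
groups and representations for which the monodromy operator has several Jordan blocks.

The proof.  Let `L` be the Lie algebra of the endomorphisms which preserve all subspaces stable under
a subgroup of finite index of the Galois group of `F` and kill all Tate tensors.  Let `L i ≤ 𝔤 i` be the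
image of `L` in the `i`-th block.  The determinant of the adjoint action on `L i` is a character with
algebraic Frobenius values; by the `ℓ`-adic six exponentials theorem (library `Pool.Agent.Y115`) it is
a power of the cyclotomic character, up to finite order and transfer to `ℚ`; the exponent is zero, as
it has absolute value one at good places.  At a place of regular monodromy the torus of the Frobenius
element contains a semisimple element `d` with `[d, N] = N` in `L i`, and `2 d` is, up to central
elements, the neutral element of the principal triple of `N`; so its trace on `L i` is a natural
number, and it is zero only if `L i` is a module over the triple, which implies `L i = 𝔤 i` as it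
contains the centralizer of `N`.  Positivity at all places above `p` gives `L i = 𝔤 i`.  Finally the
torus at `v₀` is its own centralizer in `𝔤`, the root spaces are one-dimensional, and `L = 𝔤` follows
from the equality in all blocks.
-/

set_option autoImplicit false

namespace Pool.Agent.Results.MP_bbcdf5_ag.RegularMonodromy

open NumberField IsDedekindDomain Polynomial Module Pool.Agent.Y114.TF Pool.Agent.Y114.GF
  Pool.Agent.Y114.MU Pool.Agent.Y114.RM Pool.Agent.H204R3.GP

theorem result {Γ : Type} [Group Γ] {ι : Type} [Fintype ι] [DecidableEq ι] {n : ι → ℕ} {ℓ : ℕ}
    [Fact ℓ.Prime]
    -- the `ℓ`-adic realizations of the `M i`, and the Lie algebra of the motivic Galois group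
    (ρ : Reps Γ n ℓ) (𝔤 : EndSpace n ℓ) (h𝔤 : Motivic ρ 𝔤) (hnd : NonDegBlocks 𝔤)
    -- a point with values in the number field `F`; the realizations at this point
    {F : Type} [Field F] [NumberField F] (s : Gal(AlgebraicClosure F/F) →* Γ)
    (ρs : Reps Gal(AlgebraicClosure F/F) n ℓ) (hs : ρs = restrictTo ρ s) (hρs : Conts ρs)
    (w : ι → ℤ)
    -- three primes of good reduction
    (T : Set ℕ) (hT3 : 3 ≤ T.encard) (hT : ∀ p ∈ T, p.Prime ∧ p ≠ ℓ ∧ UnramifiedIn F p)
    (hgood : ∀ p ∈ T, ∀ v, Above v p → ∀ i, ∃ P, GoodReduction ρs i (w i) v P)
    -- one Frobenius torus of maximal rank
    (v₀ : HeightOneSpectrum (𝓞 F)) (P₀ : ι → ℚ[X])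
    (hv₀ : ∀ i, GoodReduction ρs i (w i) v₀ (P₀ i))
    (hmax : ∃ r, IndepRoots r (Set.range P₀) ∧ RankLE 𝔤 r)
    (r : ι → ℕ) (hr : ∀ i, IndepRoots (r i) {P₀ i})
    -- regular monodromy
    (hreg : ∀ i, ∃ p, p.Prime ∧ p ≠ ℓ ∧ UnramifiedIn F p ∧
      (∃ v, Above v p ∧ RegularAt ρs 𝔤 i (r i) v) ∧
      ∀ v, Above v p → RegularAt ρs 𝔤 i (r i) v ∨ ∃ P, GoodReduction ρs i (w i) v P) :
    Semisimple ρ ∧ TateTensorsOf ρ 𝔤 := by
  subst hs
  obtain ⟨r₀, hr₀, hrk⟩ := hmax
  obtain ⟨h1, h2⟩ := main3 (restrictTo ρ s) inputs Pool.Agent.Y41.RM.log3 inputs2.jord
    inputs2.cartan inputs3 hρs 𝔤 (motivic_restrict h𝔤 s) hnd T hT3 hT (fun p hp v hv => by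
      choose P hP using hgood p hp v hv
      exact ⟨P, goodPlace_of _ hP⟩) (goodPlace_of _ hv₀) r₀ (independentRoots_range hr₀) hrk r
    (fun i => independentRoots_one (hr i)) (fun i => by
      obtain ⟨p, hp, hpℓ, hpu, h1, h2⟩ := hreg i
      exact ⟨p, hp, hpℓ, hpu, fun v hv => (h2 v hv).imp_right fun ⟨P, hP⟩ => goodPart_of _ hP, h1⟩)
  exact of_restrict inputs h𝔤 s h1 h2

end Pool.Agent.Results.MP_bbcdf5_ag.RegularMonodromy
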