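import Pool.Agent.Y133.Half.Gal

/-!
# Tate classes, motivated classes and algebraic classes on the powers of a variety

Let `P` be a system of classes which defines a category of motives over a finitely generated field
of characteristic zero, for example the motivated classes or the absolute Hodge classes. For every
smooth projective variety `X` and every prime number `l` the quotients of the dimension of the space
of the `l`-adic Tate classes on `X^n` and of the dimension of the space of the classes in `P` on
`X^n` converge to an element `N ≥ 1` of `ℕ ∪ {∞}`. We have `N = 1` if and only if all Tate classes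
on all powers of `X` are linear combinations of classes in `P`; otherwise these combinations make up
asymptotically at most one half of the Tate classes; and if `N` is finite, then all Tate classes are
generated by at most `N - 1` of them over `P`. The quotients for the classes in `P` and the
algebraic cycles modulo numerical equivalence converge to an element `M` with similar properties,
and the quotients for Tate classes and algebraic cycles converge to `N * M`.
-/

open CategoryTheory AlgebraicGeometry

universe u v

namespace Pool.Agent.Results.MP_bbcdf5_ag.TateTower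

open Pool.Agent.H914 Pool.Agent.H914.VarClass Pool.Agent.H914.VarClass.Obj
  Pool.Agent.H914.WeilCohomology Pool.Agent.Y133.Hdg Pool.Agent.Y133.Gal
open Pool.Agent.Y133.Half (cycRank AtMostHalf algDim pw dimBy HasIndex)

variable {k : Type u} [Field k] {𝒱 : VarClass k} {ops : CycleOps 𝒱}

theorem result (V : WeilCohomology.{u, v} ops) [Algebra V.K ℝ] (Ψ : HodgeStr V) (L : Type v)
    [Field L] [Algebra V.K L] (Γ : Type) (g : Galois V L Γ) :
    IsMotivic Ψ g (Motivated V) ∧ ∀ P, IsMotivic Ψ g P → ∀ (X : 𝒱.Obj) [Nontrivial (V.H X)],
    ∃ N M : ℕ∞, 1 ≤ N ∧ 1 ≤ M ∧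
      HasIndex (fun n => tateDim g (pw X n)) (fun n => dimBy V P (pw X n)) N ∧
      HasIndex (fun n => dimBy V P (pw X n)) (fun n => cycRank ops (pw X n)) M ∧
      HasIndex (fun n => tateDim g (pw X n)) (fun n => cycRank ops (pw X n)) (N * M) ∧
      (N = 1 ↔ ∀ n, SpannedBy (Tate g (pw X n)) (P (pw X n))) ∧
      (M = 1 ↔ ∀ n, InSpan V.K (P (pw X n)) (algClasses V (pw X n))) ∧
      (N ≠ 1 → AtMostHalf (fun n => dimBy V P (pw X n)) (fun n => tateDim g (pw X n))) ∧
      (M ≠ 1 → AtMostHalf (fun n => algDim V (pw X n)) (fun n => dimBy V P (pw X n))) ∧
      (N ≠ ⊤ → TateGenerated g P X N) :=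
  ⟨mot_isMotivic Ψ g, fun _ hP X _ => motivic_tower hP X⟩

end Pool.Agent.Results.MP_bbcdf5_ag.TateTower
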